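import Pool.Agent.helper82.SC.SpecB

/-!
# Module GP1 of project sp: positions of sites and darts of the square
-/

namespace Pool.Agent.helper82.SC

open Relation Filter Topology

theorem GP1_norm (z w : ℂ) (A B C : ℝ) (h1 : |z.re - w.re| ≤ A) (h2 : |z.im - w.im| ≤ B)
    (h3 : A + B ≤ C) : ‖z - w‖ ≤ C := by
  refine (Complex.norm_le_abs_re_add_abs_im _).trans ?_
  rw [Complex.sub_re, Complex.sub_im]
  linarith

theorem GP1_clamp (n : ℕ) (hn : 1 ≤ n) (X : ℝ) (h1 : -1 ≤ X) (h2 : X ≤ n + 1) :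
    ∃ a : ℝ, 0 ≤ a ∧ a ≤ 1 ∧ |X - n * a| ≤ 1 := by
  have hn' : (0 : ℝ) < n := by exact_mod_cast hn
  by_cases hX : X < 0
  · exact ⟨0, le_rfl, zero_le_one, by rw [mul_zero, sub_zero, abs_le]; constructor <;> linarith⟩
  · by_cases hX2 : (n : ℝ) < X
    · exact ⟨1, zero_le_one, le_rfl, by rw [mul_one, abs_le]; constructor <;> linarith⟩
    · push Not at hX hX2
      refine ⟨X / n, by positivity, by rwa [div_le_one hn'], ?_⟩
      rw [mul_div_cancel₀ _ hn'.ne', sub_self, abs_zero]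
      exact zero_le_one

theorem GP1_s3 : 0 < Real.sqrt 3 / 2 ∧ Real.sqrt 3 / 2 < 1 ∧ (Real.sqrt 3 / 2) ^ 2 = 3 / 4 := by
  have h0 : (0 : ℝ) < Real.sqrt 3 := Real.sqrt_pos.mpr (by norm_num)
  have h1 : Real.sqrt 3 ^ 2 = 3 := Real.sq_sqrt (by norm_num)
  refine ⟨by positivity, ?_, ?_⟩
  · have : Real.sqrt 3 < 2 := by
      rw [Real.sqrt_lt' (by norm_num)]; norm_num
    linarith
  · rw [div_pow, h1]; norm_num

theorem GP1_top1 (n : ℕ) (hn : 1 ≤ n) : 1 ≤ top n := by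
  rw [top_spec]
  nlinarith

theorem GP1_topU (n : ℕ) : Real.sqrt 3 / 2 * (top n : ℝ) ≤ n := by
  obtain ⟨h0, -, h2⟩ := GP1_s3
  have h := (top_spec n (top n)).1 le_rfl
  have h' : (3 : ℝ) * (top n : ℝ) ^ 2 ≤ 4 * (n : ℝ) ^ 2 := by exact_mod_cast h
  have h3 : (Real.sqrt 3 / 2 * (top n : ℝ)) ^ 2 ≤ (n : ℝ) ^ 2 := by
    rw [mul_pow, h2]; linarith
  exact le_of_sq_le_sq h3 (by positivity)

theorem GP1_topL (n : ℕ) : (n : ℝ) < Real.sqrt 3 / 2 * ((top n : ℝ) + 1) := by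
  obtain ⟨h0, -, h2⟩ := GP1_s3
  have h := (top_spec n (top n + 1)).not.1 (by omega)
  push Not at h
  have h' : (4 : ℝ) * (n : ℝ) ^ 2 < 3 * ((top n : ℝ) + 1) ^ 2 := by exact_mod_cast h
  have h3 : (n : ℝ) ^ 2 < (Real.sqrt 3 / 2 * ((top n : ℝ) + 1)) ^ 2 := by
    rw [mul_pow, h2]; linarith
  exact lt_of_pow_lt_pow_left₀ 2 (by positivity) h3

theorem GP1_row (n : ℕ) (b : ℝ) (hb0 : 0 ≤ b) (hb1 : b ≤ 1) :
    ∃ J : ℕ, J ≤ top n ∧ Real.sqrt 3 / 2 * (J : ℝ) ≤ n * b ∧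
      n * b < Real.sqrt 3 / 2 * ((J : ℝ) + 1) := by
  obtain ⟨h0, -, -⟩ := GP1_s3
  have hL := GP1_topL n
  set h := Real.sqrt 3 / 2 with hh
  have hnb : (n : ℝ) * b ≤ n := by
    have : (0 : ℝ) ≤ n := Nat.cast_nonneg n
    nlinarith
  have hq : 0 ≤ (n : ℝ) * b / h := by positivity
  have h1 := Nat.floor_le hq
  have h2 := Nat.lt_floor_add_one ((n : ℝ) * b / h)
  set J := ⌊(n : ℝ) * b / h⌋₊ with hJ
  rw [le_div_iff₀ h0] at h1
  rw [div_lt_iff₀ h0] at h2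
  refine ⟨J, ?_, by linarith, by linarith⟩
  have h3 : h * (J : ℝ) < h * ((top n : ℝ) + 1) := by linarith
  have h4 : (J : ℝ) < (top n : ℝ) + 1 := lt_of_mul_lt_mul_left h3 h0.le
  have h5 : J < top n + 1 := by exact_mod_cast h4
  omega

theorem GP1_row_even (n : ℕ) (hn : 1 ≤ n) (b : ℝ) (hb0 : 0 ≤ b) (hb1 : b ≤ 1) :
    ∃ m : ℕ, 2 * m + 1 ≤ top n ∧ |Real.sqrt 3 / 2 * (2 * (m : ℝ)) - n * b| ≤ 3 := by
  obtain ⟨h0, h01, -⟩ := GP1_s3
  obtain ⟨J, hJ, h1, h2⟩ := GP1_row n b hb0 hb1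
  have ht := GP1_top1 n hn
  refine ⟨(J - 1) / 2, by omega, ?_⟩
  have h3 : 2 * ((J - 1) / 2) ≤ J := by omega
  have h4 : J ≤ 2 * ((J - 1) / 2) + 2 := by omega
  have h3' : (2 : ℝ) * (((J - 1) / 2 : ℕ) : ℝ) ≤ J := by exact_mod_cast h3
  have h4' : (J : ℝ) ≤ 2 * (((J - 1) / 2 : ℕ) : ℝ) + 2 := by exact_mod_cast h4
  rw [abs_le]
  constructor <;> nlinarith

theorem GP1_col (n : ℕ) (hn : 1 ≤ n) (a : ℝ) (ha0 : 0 ≤ a) (ha1 : a ≤ 1) (j : ℤ) :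
    ∃ i : ℤ, 0 ≤ 2 * i + j ∧ 2 * i + j ≤ 2 * n ∧ |(i : ℝ) + (j : ℝ) / 2 - n * a| ≤ 1 := by
  have hn0 : (0 : ℝ) ≤ n := Nat.cast_nonneg n
  have hX0 : 0 ≤ (n : ℝ) * a := by positivity
  have hX1 : (n : ℝ) * a ≤ n := by nlinarith
  have h1 := Int.floor_le ((n : ℝ) * a - (j : ℝ) / 2)
  have h2 := Int.lt_floor_add_one ((n : ℝ) * a - (j : ℝ) / 2)
  set i := ⌊(n : ℝ) * a - (j : ℝ) / 2⌋ with hi
  by_cases hc : 0 ≤ 2 * i + j
  · refine ⟨i, hc, ?_, ?_⟩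
    · have : (2 : ℝ) * i + j ≤ 2 * n := by linarith
      exact_mod_cast this
    · rw [abs_le]; constructor <;> linarith
  · push Not at hc
    refine ⟨i + 1, ?_, by omega, ?_⟩
    · have : (0 : ℝ) < 2 * ((i : ℝ) + 1) + j := by linarith
      have h3 : (0 : ℤ) < 2 * (i + 1) + j := by exact_mod_cast this
      omega
    · have h4 : (2 : ℝ) * i + j ≤ 0 := by exact_mod_cast hc.le
      push_cast
      rw [abs_le]; constructor <;> linarith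

theorem GP1_pd_re (x : Dart) : (pd x).re =
    ((ps (S x.1 x.2)).re + (ps (S x.1 (x.2 + 1))).re) / 2 := by
  simp [pd]

theorem GP1_pd_im (x : Dart) : (pd x).im =
    ((ps (S x.1 x.2)).im + (ps (S x.1 (x.2 + 1))).im) / 2 := by
  simp [pd]

theorem GP1_nw (n : ℕ) (w : ℂ) : ((n : ℂ) * w).re = n * w.re ∧ ((n : ℂ) * w).im = n * w.im := by
  simp

theorem GP1_nbr (f : F) (d e : Fin 3) (h : d ≠ e) :
    (S f d).2 ≤ (S f e).2 + 1 ∧ (S f e).2 ≤ (S f d).2 + 1 ∧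
    2 * (S f d).1 + (S f d).2 ≤ 2 * (S f e).1 + (S f e).2 + 2 ∧
    2 * (S f e).1 + (S f e).2 ≤ 2 * (S f d).1 + (S f d).2 + 2 := by
  have h1 := TAdj_S f d e h
  generalize S f d = u at *
  generalize S f e = v at *
  obtain ⟨i, j⟩ := u
  obtain ⟨k, l⟩ := v
  simp only [TAdj, Prod.mk.injEq] at h1
  simp only
  omega

/-- the exterior sites of the faces of the square -/
theorem GP1_out (n : ℕ) (hn : 1 ≤ n) (v u : V) (hv : v ∉ Usq n) (hu : u ∈ Usq n)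
    (h1 : v.2 ≤ u.2 + 1) (h2 : u.2 ≤ v.2 + 1) (h3 : 2 * v.1 + v.2 ≤ 2 * u.1 + u.2 + 2)
    (h4 : 2 * u.1 + u.2 ≤ 2 * v.1 + v.2 + 2) :
    ∃ w ∈ arc (secsq n v), ‖ps v - n * w‖ ≤ 4 := by
  obtain ⟨h0, h01, -⟩ := GP1_s3
  have hU := GP1_topU n
  have hL := GP1_topL n
  rw [mem_Usq] at hv hu
  obtain ⟨hu1, hu2, hu3, hu4⟩ := hu
  have hn' : (0 : ℝ) < n := by exact_mod_cast hn
  have hX1 : (-1 : ℝ) ≤ (v.1 : ℝ) + (v.2 : ℝ) / 2 := by
    have : (-2 : ℤ) ≤ 2 * v.1 + v.2 := by omega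
    have : (-2 : ℝ) ≤ 2 * (v.1 : ℝ) + (v.2 : ℝ) := by exact_mod_cast this
    linarith
  have hX2 : (v.1 : ℝ) + (v.2 : ℝ) / 2 ≤ n + 1 := by
    have : 2 * v.1 + v.2 ≤ 2 * n + 2 := by omega
    have : 2 * (v.1 : ℝ) + (v.2 : ℝ) ≤ 2 * n + 2 := by exact_mod_cast this
    linarith
  obtain ⟨a, ha0, ha1, ha⟩ := GP1_clamp n hn _ hX1 hX2
  unfold secsq
  by_cases c1 : v.2 < 0
  · rw [if_pos c1]
    refine ⟨⟨a, 0⟩, ⟨⟨ha0, ha1, le_rfl, zero_le_one⟩, ?_⟩, ?_⟩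
    · rw [if_pos rfl]; exact Or.inl rfl
    · have h5 : v.2 = -1 := by omega
      have h6 : (v.2 : ℝ) = -1 := by exact_mod_cast h5
      apply GP1_norm _ _ 1 1 4 _ _ (by norm_num)
      · rw [(GP1_nw n _).1]
        exact ha
      · rw [(GP1_nw n _).2]
        show |Real.sqrt 3 / 2 * (v.2 : ℝ) - n * 0| ≤ 1
        rw [h6, abs_le]; constructor <;> linarith
  rw [if_neg c1]
  by_cases c2 : (top n : ℤ) < v.2
  · rw [if_pos c2]
    refine ⟨⟨a, 1⟩, ⟨⟨ha0, ha1, zero_le_one, le_rfl⟩, ?_⟩, ?_⟩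
    · rw [if_neg (by decide), if_pos rfl]
    · have h5 : v.2 = (top n : ℤ) + 1 := by omega
      have h6 : (v.2 : ℝ) = (top n : ℝ) + 1 := by exact_mod_cast h5
      apply GP1_norm _ _ 1 1 4 _ _ (by norm_num)
      · rw [(GP1_nw n _).1]
        exact ha
      · rw [(GP1_nw n _).2]
        show |Real.sqrt 3 / 2 * (v.2 : ℝ) - n * 1| ≤ 1
        rw [h6, abs_le]; constructor <;> linarith
  rw [if_neg c2]
  push Not at c1 c2
  have hy0 : 0 ≤ Real.sqrt 3 / 2 * (v.2 : ℝ) := by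
    have : (0 : ℝ) ≤ v.2 := by exact_mod_cast c1
    positivity
  have hy1 : Real.sqrt 3 / 2 * (v.2 : ℝ) ≤ n := by
    have : (v.2 : ℝ) ≤ top n := by exact_mod_cast c2
    nlinarith
  have hyq : (n : ℝ) * (Real.sqrt 3 / 2 * (v.2 : ℝ) / n) = Real.sqrt 3 / 2 * (v.2 : ℝ) :=
    mul_div_cancel₀ _ hn'.ne'
  have hyb : 0 ≤ Real.sqrt 3 / 2 * (v.2 : ℝ) / n ∧ Real.sqrt 3 / 2 * (v.2 : ℝ) / n ≤ 1 :=
    ⟨by positivity, by rwa [div_le_one hn']⟩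
  by_cases c3 : 2 * v.1 + v.2 < 0
  · rw [if_pos c3]
    refine ⟨⟨0, Real.sqrt 3 / 2 * (v.2 : ℝ) / n⟩, ⟨⟨le_rfl, zero_le_one, hyb.1, hyb.2⟩, ?_⟩, ?_⟩
    · rw [if_neg (by decide), if_neg (by decide)]
    · apply GP1_norm _ _ 1 1 4 _ _ (by norm_num)
      · rw [(GP1_nw n _).1]
        show |(v.1 : ℝ) + (v.2 : ℝ) / 2 - n * 0| ≤ 1
        have : 2 * (v.1 : ℝ) + (v.2 : ℝ) ≤ 0 := by exact_mod_cast c3.le
        rw [abs_le]; constructor <;> linarith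
      · rw [(GP1_nw n _).2]
        show |Real.sqrt 3 / 2 * (v.2 : ℝ) - n * (Real.sqrt 3 / 2 * (v.2 : ℝ) / n)| ≤ 1
        rw [hyq, sub_self, abs_zero]; exact zero_le_one
  · rw [if_neg c3]
    push Not at c3
    have c4 : 2 * (n : ℤ) < 2 * v.1 + v.2 := by
      by_contra hc
      push Not at hc
      exact hv ⟨c1, c2, c3, hc⟩
    refine ⟨⟨1, Real.sqrt 3 / 2 * (v.2 : ℝ) / n⟩, ⟨⟨zero_le_one, le_rfl, hyb.1, hyb.2⟩, ?_⟩, ?_⟩
    · rw [if_pos rfl]; exact Or.inr rfl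
    · apply GP1_norm _ _ 1 1 4 _ _ (by norm_num)
      · rw [(GP1_nw n _).1]
        show |(v.1 : ℝ) + (v.2 : ℝ) / 2 - n * 1| ≤ 1
        have : 2 * (n : ℝ) ≤ 2 * (v.1 : ℝ) + (v.2 : ℝ) := by exact_mod_cast c4.le
        rw [abs_le]; constructor <;> linarith
      · rw [(GP1_nw n _).2]
        show |Real.sqrt 3 / 2 * (v.2 : ℝ) - n * (Real.sqrt 3 / 2 * (v.2 : ℝ) / n)| ≤ 1
        rw [hyq, sub_self, abs_zero]; exact zero_le_one

/-- the corner darts -/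
theorem GP1_corner (n : ℕ) (m : Fin 3) : ‖pd (asq n m) - n * co m‖ ≤ 4 := by
  obtain ⟨h0, h01, -⟩ := GP1_s3
  have hU := GP1_topU n
  have hL := GP1_topL n
  fin_cases m
  · have h1 := Int.emod_add_mul_ediv (top n : ℤ) 2
    have h2 := Int.emod_nonneg (top n : ℤ) (by norm_num : (2 : ℤ) ≠ 0)
    have h3 := Int.emod_lt_of_pos (top n : ℤ) (by norm_num : (0 : ℤ) < 2)
    set q := (top n : ℤ) / 2 with hq
    set r := (top n : ℤ) % 2 with hr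
    have h1' : (r : ℝ) + 2 * (q : ℝ) = (top n : ℝ) := by exact_mod_cast h1
    have h2' : (0 : ℝ) ≤ r := by exact_mod_cast h2
    have h3' : (r : ℝ) ≤ 1 := by
      have : r ≤ 1 := by omega
      exact_mod_cast this
    apply GP1_norm _ _ 2 2 4 _ _ (by norm_num)
    · rw [GP1_pd_re, (GP1_nw n _).1]
      simp [asq, S, ps, co]
      rw [abs_le]; constructor <;> linarith
    · rw [GP1_pd_im, (GP1_nw n _).2]
      simp [asq, S, ps, co]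
      rw [abs_le]; constructor <;> linarith
  · apply GP1_norm _ _ 2 2 4 _ _ (by norm_num)
    · rw [GP1_pd_re, (GP1_nw n _).1]
      simp [asq, S, ps, co]
      rw [abs_le]; constructor <;> linarith
    · rw [GP1_pd_im, (GP1_nw n _).2]
      simp [asq, S, ps, co]
      rw [abs_le]; constructor <;> linarith
  · have h1 := Int.emod_add_mul_ediv (2 * (n : ℤ) - top n) 2
    have h2 := Int.emod_nonneg (2 * (n : ℤ) - top n) (by norm_num : (2 : ℤ) ≠ 0)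
    have h3 := Int.emod_lt_of_pos (2 * (n : ℤ) - top n) (by norm_num : (0 : ℤ) < 2)
    set q := (2 * (n : ℤ) - top n) / 2 with hq
    set r := (2 * (n : ℤ) - top n) % 2 with hr
    have h1' : (r : ℝ) + 2 * (q : ℝ) = 2 * (n : ℝ) - (top n : ℝ) := by exact_mod_cast h1
    have h2' : (0 : ℝ) ≤ r := by exact_mod_cast h2
    have h3' : (r : ℝ) ≤ 1 := by
      have : r ≤ 1 := by omega
      exact_mod_cast this
    apply GP1_norm _ _ 2 2 4 _ _ (by norm_num)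
    · rw [GP1_pd_re, (GP1_nw n _).1]
      simp [asq, S, ps, co, ← hq]
      rw [abs_le]; constructor <;> linarith
    · rw [GP1_pd_im, (GP1_nw n _).2]
      simp [asq, S, ps, co, ← hq]
      rw [abs_le]; constructor <;> linarith

/-- the conclusion of the last part -/
def GP1_bd (n : ℕ) (j : Fin 3) (p : Dart) : Prop :=
  (∃ d, S p.1 d ∈ Usq n) ∧ S p.1 p.2 ∉ Usq n ∧ S p.1 (p.2 + 1) ∉ Usq n ∧
    secsq n (S p.1 p.2) = j ∧ secsq n (S p.1 (p.2 + 1)) = j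

theorem GP1_bottom (n : ℕ) (hn : 1 ≤ n) (a : ℝ) (ha0 : 0 ≤ a) (ha1 : a ≤ 1) :
    ∃ p : Dart, GP1_bd n 0 p ∧ ‖pd p - n * (⟨a, 0⟩ : ℂ)‖ ≤ 8 := by
  obtain ⟨h0, h01, -⟩ := GP1_s3
  obtain ⟨i, hi1, hi2, hi3⟩ := GP1_col n hn a ha0 ha1 0
  have hi3' := abs_le.mp hi3
  push_cast at hi3'
  refine ⟨(((i, -1), false), 0), ⟨⟨2, ?_⟩, ?_, ?_, ?_, ?_⟩, ?_⟩
  · rw [mem_Usq]; simp [S]; omega
  · rw [mem_Usq]; simp [S]
  · rw [mem_Usq]; simp [S]
  · simp [S, secsq]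
  · simp [S, secsq]
  · apply GP1_norm _ _ 4 4 8 _ _ (by norm_num)
    · rw [GP1_pd_re, (GP1_nw n _).1]
      simp [S, ps]
      rw [abs_le]; constructor <;> linarith [hi3'.1, hi3'.2]
    · rw [GP1_pd_im, (GP1_nw n _).2]
      simp [S, ps]
      rw [abs_le]; constructor <;> linarith

theorem GP1_topside (n : ℕ) (hn : 1 ≤ n) (a : ℝ) (ha0 : 0 ≤ a) (ha1 : a ≤ 1) :
    ∃ p : Dart, GP1_bd n 1 p ∧ ‖pd p - n * (⟨a, 1⟩ : ℂ)‖ ≤ 8 := by
  obtain ⟨h0, h01, -⟩ := GP1_s3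
  have hU := GP1_topU n
  have hL := GP1_topL n
  obtain ⟨i, hi1, hi2, hi3⟩ := GP1_col n hn a ha0 ha1 (top n)
  have hi3' := abs_le.mp hi3
  push_cast at hi3'
  refine ⟨(((i - 1, (top n : ℤ)), true), 0), ⟨⟨2, ?_⟩, ?_, ?_, ?_, ?_⟩, ?_⟩
  · rw [mem_Usq]; simp [S]; omega
  · rw [mem_Usq]; simp [S]
  · rw [mem_Usq]; simp [S]
  · simp only [S, secsq]; simp; omega
  · simp only [S, secsq]; simp; omega
  · apply GP1_norm _ _ 4 4 8 _ _ (by norm_num)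
    · rw [GP1_pd_re, (GP1_nw n _).1]
      simp [S, ps]
      rw [abs_le]; constructor <;> linarith [hi3'.1, hi3'.2]
    · rw [GP1_pd_im, (GP1_nw n _).2]
      simp [S, ps]
      rw [abs_le]; constructor <;> linarith

theorem GP1_left (n : ℕ) (hn : 1 ≤ n) (b : ℝ) (hb0 : 0 ≤ b) (hb1 : b ≤ 1) :
    ∃ p : Dart, GP1_bd n 2 p ∧ ‖pd p - n * (⟨0, b⟩ : ℂ)‖ ≤ 8 := by
  obtain ⟨h0, h01, -⟩ := GP1_s3
  obtain ⟨m, hm1, hm2⟩ := GP1_row_even n hn b hb0 hb1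
  have hm2' := abs_le.mp hm2
  refine ⟨(((-(m : ℤ) - 1, 2 * (m : ℤ)), false), 2), ⟨⟨1, ?_⟩, ?_, ?_, ?_, ?_⟩, ?_⟩
  · rw [mem_Usq]; simp [S]; omega
  · rw [mem_Usq]; simp [S]; omega
  · rw [mem_Usq]; simp [S]; omega
  · simp only [S, secsq]; simp
    rw [if_neg (by omega), if_neg (by omega), if_pos (by omega)]
  · simp only [S, secsq]; simp
    rw [if_neg (by omega), if_neg (by omega), if_pos (by omega)]
  · apply GP1_norm _ _ 4 4 8 _ _ (by norm_num)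
    · rw [GP1_pd_re, (GP1_nw n _).1]
      simp [S, ps]
      rw [abs_le]; constructor <;> linarith
    · rw [GP1_pd_im, (GP1_nw n _).2]
      simp [S, ps]
      rw [abs_le]; constructor <;> nlinarith [hm2'.1, hm2'.2]

theorem GP1_right (n : ℕ) (hn : 1 ≤ n) (b : ℝ) (hb0 : 0 ≤ b) (hb1 : b ≤ 1) :
    ∃ p : Dart, GP1_bd n 0 p ∧ ‖pd p - n * (⟨1, b⟩ : ℂ)‖ ≤ 8 := by
  obtain ⟨h0, h01, -⟩ := GP1_s3
  obtain ⟨m, hm1, hm2⟩ := GP1_row_even n hn b hb0 hb1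
  have hm2' := abs_le.mp hm2
  refine ⟨((((n : ℤ) - (m : ℤ), 2 * (m : ℤ)), false), 1), ⟨⟨0, ?_⟩, ?_, ?_, ?_, ?_⟩, ?_⟩
  · rw [mem_Usq]; simp [S]; omega
  · rw [mem_Usq]; simp [S]; omega
  · rw [mem_Usq]; simp [S]; omega
  · simp only [S, secsq]; simp
    split_ifs <;> first | rfl | omega
  · simp only [S, secsq]; simp
    split_ifs <;> first | rfl | omega
  · apply GP1_norm _ _ 4 4 8 _ _ (by norm_num)
    · rw [GP1_pd_re, (GP1_nw n _).1]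
      simp [S, ps]
      rw [abs_le]; constructor <;> linarith
    · rw [GP1_pd_im, (GP1_nw n _).2]
      simp [S, ps]
      rw [abs_le]; constructor <;> nlinarith [hm2'.1, hm2'.2]

theorem GP1 : GP1_stmt := by
  intro n D hn hD
  obtain ⟨hDU, hDs, hDa⟩ := hD
  obtain ⟨h0, h01, -⟩ := GP1_s3
  have hU := GP1_topU n
  have hn' : (0 : ℝ) < n := by exact_mod_cast hn
  refine ⟨?_, ?_, ?_, ?_, ?_⟩
  · intro v hv
    rw [hDU, mem_Usq] at hv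
    obtain ⟨v1, v2, v3, v4⟩ := hv
    have v1' : (0 : ℝ) ≤ v.2 := by exact_mod_cast v1
    have v2' : (v.2 : ℝ) ≤ top n := by exact_mod_cast v2
    have v3' : 0 ≤ 2 * (v.1 : ℝ) + (v.2 : ℝ) := by exact_mod_cast v3
    have v4' : 2 * (v.1 : ℝ) + (v.2 : ℝ) ≤ 2 * n := by exact_mod_cast v4
    refine ⟨⟨((v.1 : ℝ) + (v.2 : ℝ) / 2) / n, Real.sqrt 3 / 2 * (v.2 : ℝ) / n⟩, ⟨?_, ?_, ?_, ?_⟩, ?_⟩
    · apply div_nonneg _ hn'.le; linarith
    · show ((v.1 : ℝ) + (v.2 : ℝ) / 2) / n ≤ 1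
      rw [div_le_one hn']; linarith
    · positivity
    · show Real.sqrt 3 / 2 * (v.2 : ℝ) / n ≤ 1
      rw [div_le_one hn']; nlinarith
    · apply GP1_norm _ _ 1 1 2 _ _ (by norm_num)
      · rw [(GP1_nw n _).1]
        show |(v.1 : ℝ) + (v.2 : ℝ) / 2 - n * (((v.1 : ℝ) + (v.2 : ℝ) / 2) / n)| ≤ 1
        rw [mul_div_cancel₀ _ hn'.ne', sub_self, abs_zero]; exact zero_le_one
      · rw [(GP1_nw n _).2]
        show |Real.sqrt 3 / 2 * (v.2 : ℝ) - n * (Real.sqrt 3 / 2 * (v.2 : ℝ) / n)| ≤ 1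
        rw [mul_div_cancel₀ _ hn'.ne', sub_self, abs_zero]; exact zero_le_one
  · rintro f ⟨e, he⟩ d hd
    rw [hDs]
    rw [hDU] at he hd
    have hde : d ≠ e := by rintro rfl; exact hd he
    obtain ⟨h1, h2, h3, h4⟩ := GP1_nbr f d e hde
    exact GP1_out n hn _ _ hd he h1 h2 h3 h4
  · intro m
    rw [hDa]
    exact GP1_corner n m
  · rintro w ⟨w1, w2, w3, w4⟩
    obtain ⟨J, hJ, hJ1, hJ2⟩ := GP1_row n w.im w3 w4
    obtain ⟨i, hi1, hi2, hi3⟩ := GP1_col n hn w.re w1 w2 J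
    have hi3' := abs_le.mp hi3
    push_cast at hi3'
    refine ⟨(((i, (J : ℤ)), false), 0), ⟨0, ?_⟩, ?_⟩
    · rw [hDU, mem_Usq]; simp [S]; omega
    · apply GP1_norm _ _ 2 2 4 _ _ (by norm_num)
      · rw [GP1_pd_re, (GP1_nw n _).1]
        simp [S, ps]
        rw [abs_le]; constructor <;> linarith [hi3'.1, hi3'.2]
      · rw [GP1_pd_im, (GP1_nw n _).2]
        simp [S, ps]
        rw [abs_le]; constructor <;> linarith
  · have key : ∀ (j : Fin 3) (w : ℂ), w ∈ arc j → ∃ p : Dart, GP1_bd n j p ∧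
        ‖pd p - n * w‖ ≤ 8 := by
      rintro j w ⟨⟨w1, w2, w3, w4⟩, hw⟩
      by_cases hj0 : j = 0
      · rw [if_pos hj0] at hw
        rcases hw with hw | hw
        · obtain ⟨p, h1, h2⟩ := GP1_bottom n hn w.re w1 w2
          have : w = ⟨w.re, 0⟩ := Complex.ext rfl hw
          rw [hj0]
          exact ⟨p, h1, by rw [this]; exact h2⟩
        · obtain ⟨p, h1, h2⟩ := GP1_right n hn w.im w3 w4
          have : w = ⟨1, w.im⟩ := Complex.ext hw rfl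
          rw [hj0]
          exact ⟨p, h1, by rw [this]; exact h2⟩
      rw [if_neg hj0] at hw
      by_cases hj1 : j = 1
      · rw [if_pos hj1] at hw
        obtain ⟨p, h1, h2⟩ := GP1_topside n hn w.re w1 w2
        have : w = ⟨w.re, 1⟩ := Complex.ext rfl hw
        rw [hj1]
        exact ⟨p, h1, by rw [this]; exact h2⟩
      · rw [if_neg hj1] at hw
        obtain ⟨p, h1, h2⟩ := GP1_left n hn w.im w3 w4
        have : w = ⟨0, w.im⟩ := Complex.ext hw rfl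
        have hj2 : j = 2 := by
          fin_cases j
          · exact absurd rfl hj0
          · exact absurd rfl hj1
          · rfl
        rw [hj2]
        exact ⟨p, h1, by rw [this]; exact h2⟩
    intro j w hw
    obtain ⟨p, ⟨⟨d, hd⟩, h1, h2, h3, h4⟩, h5⟩ := key j w hw
    refine ⟨p, ⟨d, by rw [hDU]; exact hd⟩, h5, Or.inr ⟨?_, ?_, ?_, ?_⟩⟩
    · rw [hDU]; exact h1
    · rw [hDU]; exact h2
    · rw [hDs]; exact h3
    · rw [hDs]; exact h4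

end Pool.Agent.helper82.SC
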